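import Mathlib.Combinatorics.SimpleGraph.Hamiltonian
import Mathlib.Data.Set.Card
import Mathlib.Tactic

/-!
# Replacing vertices by copies of a graph minus a vertex: definitions
-/

namespace PolySum

/-- The vertices of the sum: a vertex `b` of the base graph which is not in `R` is kept, as the
pair `(b, w)`; a vertex `b` in `R` is replaced by the pairs `(b, v)` with `v ≠ w`. -/
def SumVert {β V : Type*} (R : Set β) (w : V) : Type _ := {p : β × V // p.1 ∈ R ↔ p.2 ≠ w}

/-- The graph obtained from `B` by replacing every vertex `b` in `R` by a copy of `G` minus the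
vertex `w`; the edge from `b` in `R` to `b'` is attached to the vertex `port b b'` of the copy.
If `b` has the same degree as `w` and the vertices `port b b'` are the neighbours of `w`, this is
the connected sum at the vertices `b` and `w`. -/
def sumGraph {β V : Type*} (B : SimpleGraph β) (G : SimpleGraph V) (w : V) (R : Set β)
    (port : β → β → V) : SimpleGraph (SumVert R w) where
  Adj p q := (p.1.1 = q.1.1 ∧ G.Adj p.1.2 q.1.2) ∨
    (B.Adj p.1.1 q.1.1 ∧ (p.1.1 ∈ R → p.1.2 = port p.1.1 q.1.1) ∧
      (q.1.1 ∈ R → q.1.2 = port q.1.1 p.1.1))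
  symm := ⟨by
    rintro p q (⟨h1, h2⟩ | ⟨h1, h2, h3⟩)
    · exact Or.inl ⟨h1.symm, h2.symm⟩
    · exact Or.inr ⟨h1.symm, h3, h2⟩⟩
  loopless := ⟨by
    rintro p (⟨_, h2⟩ | ⟨h1, _⟩)
    · exact G.ne_of_adj h2 rfl
    · exact B.ne_of_adj h1 rfl⟩

end PolySum
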