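import Pool.Agent.FlagHam.Ham

/-!
# From a cyclic map to a Hamilton cycle with known edges
-/

namespace FlagHam

variable {V : Type*} {Γ : SimpleGraph V} {f : V → V}

theorem mem_edges_itWalk' (hadj : ∀ v, Γ.Adj v (f v)) (k : ℕ) (u : V) (j : ℕ) (hj : j < k) :
    s(f^[j] u, f^[j + 1] u) ∈ (itWalk hadj k u).edges := by
  induction k generalizing u j with
  | zero => exact absurd hj (Nat.not_lt_zero j)
  | succ k ih =>
    simp only [itWalk, SimpleGraph.Walk.edges_cons, List.mem_cons]
    cases j with
    | zero => left; rfl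
    | succ j =>
      right
      exact ih (f u) j (by omega)

/-- A cyclic map along the edges of a graph gives a Hamilton cycle with these edges. -/
theorem hamiltonian_edges_of_cyclic [Finite V] [DecidableEq V] (hadj : ∀ v, Γ.Adj v (f v))
    (htrans : ∀ u v, ∃ k, f^[k] u = v)
    (h3 : ∃ a b c : V, a ≠ b ∧ a ≠ c ∧ b ≠ c) :
    ∃ (v : V) (p : Γ.Walk v v), p.IsHamiltonianCycle ∧
      ∀ e, e ∈ p.edges ↔ ∃ x, e = s(x, f x) := by
  classical
  have : Fintype V := Fintype.ofFinite V
  obtain ⟨v0, b0, c0, hab, hac, hbc⟩ := h3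
  have hper : ∃ k, 0 < k ∧ f^[k] v0 = v0 := by
    obtain ⟨k, hk⟩ := htrans (f v0) v0
    exact ⟨k + 1, Nat.succ_pos k, hk⟩
  set N := Nat.find hper with hN
  have hNpos : 0 < N := (Nat.find_spec hper).1
  have hNv : f^[N] v0 = v0 := (Nat.find_spec hper).2
  have hmin : ∀ k, 0 < k → k < N → f^[k] v0 ≠ v0 := by
    intro k hk hkN h
    exact Nat.find_min hper hkN ⟨hk, h⟩
  have hNm : ∀ m, f^[N * m] v0 = v0 := by
    intro m
    induction m with
    | zero => rfl
    | succ m ih => rw [Nat.mul_succ, Function.iterate_add_apply, hNv, ih]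
  have hmod : ∀ k, f^[k] v0 = f^[k % N] v0 := by
    intro k
    conv_lhs => rw [← Nat.mod_add_div k N]
    rw [Function.iterate_add_apply, hNm]
  have hdist : ∀ i j, i < j → j < N → f^[i] v0 ≠ f^[j] v0 := by
    intro i j hij hj h
    have h1 : f^[N - j + i] v0 = f^[N - j + j] v0 := by
      rw [Function.iterate_add_apply, Function.iterate_add_apply, h]
    have h2 : N - j + j = N := by omega
    rw [h2, hNv] at h1
    exact hmin (N - j + i) (by omega) (by omega) h1
  have hcard : Fintype.card V = N := by
    have hbij : Function.Bijective (fun i : Fin N => f^[i.1] v0) := by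
      constructor
      · intro i j hij
        by_contra hne
        have : i.1 ≠ j.1 := fun h => hne (Fin.ext h)
        rcases Nat.lt_or_gt_of_ne this with h | h
        · exact hdist i.1 j.1 h j.2 hij
        · exact hdist j.1 i.1 h i.2 hij.symm
      · intro w
        obtain ⟨k, hk⟩ := htrans v0 w
        refine ⟨⟨k % N, Nat.mod_lt _ hNpos⟩, ?_⟩
        show f^[k % N] v0 = w
        rw [← hmod, hk]
    rw [← Fintype.card_of_bijective hbij, Fintype.card_fin]
  have hN3 : 3 ≤ N := by
    rw [← hcard]
    have hsub : ({v0, b0, c0} : Finset V).card ≤ Fintype.card V := Finset.card_le_univ _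
    have h3c : ({v0, b0, c0} : Finset V).card = 3 := Finset.card_eq_three.mpr
      ⟨v0, b0, c0, hab, hac, hbc, rfl⟩
    omega
  have hN' : N = (N - 1) + 1 := by omega
  have hlast : f^[N - 1] (f v0) = v0 := by
    have : f^[(N - 1) + 1] v0 = v0 := by rw [← hN']; exact hNv
    exact this
  let p : Γ.Walk (f v0) v0 := (itWalk hadj (N - 1) (f v0)).copy rfl hlast
  refine ⟨v0, SimpleGraph.Walk.cons (hadj v0) p, ?_, ?_⟩
  · rw [SimpleGraph.Walk.isHamiltonianCycle_iff_isCycle_and_length_eq]
    constructor
    · rw [SimpleGraph.Walk.cons_isCycle_iff]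
      constructor
      · simp only [p, SimpleGraph.Walk.isPath_copy]
        refine isPath_itWalk hadj (N - 1) (f v0) ?_
        intro i j hij hj h
        have h' : f^[i + 1] v0 = f^[j + 1] v0 := h
        by_cases hjN : j + 1 = N
        · rw [hjN, hNv] at h'
          exact hmin (i + 1) (by omega) (by omega) h'
        · exact hdist (i + 1) (j + 1) (by omega) (by omega) h'
      · intro he
        simp only [p, SimpleGraph.Walk.edges_copy] at he
        obtain ⟨j, hj, h⟩ := mem_edges_itWalk hadj _ _ _ he
        have h1 : s(v0, f v0) = s(f^[j + 1] v0, f^[j + 2] v0) := h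
        rw [Sym2.eq_iff] at h1
        rcases h1 with ⟨h2, _⟩ | ⟨h2, h3⟩
        · exact hmin (j + 1) (by omega) (by omega) h2.symm
        · have hj0 : j = 0 := by
            by_contra hne
            exact hdist 1 (j + 1) (by omega) (by omega) h3
          subst hj0
          exact hmin 2 (by omega) (by omega) h2.symm
    · simp only [p, SimpleGraph.Walk.length_cons, SimpleGraph.Walk.length_copy, itWalk_length]
      omega
  · intro e
    simp only [p, SimpleGraph.Walk.edges_cons, SimpleGraph.Walk.edges_copy, List.mem_cons]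
    constructor
    · rintro (h | h)
      · exact ⟨v0, h⟩
      · obtain ⟨j, _, h⟩ := mem_edges_itWalk hadj _ _ _ h
        refine ⟨f^[j] (f v0), ?_⟩
        rw [h, Function.iterate_succ_apply']
    · rintro ⟨x, rfl⟩
      obtain ⟨k, hk⟩ := htrans v0 x
      rw [hmod] at hk
      have hkN := Nat.mod_lt k hNpos
      set m := k % N
      cases hm : m with
      | zero =>
        left
        rw [hm] at hk
        change v0 = x at hk
        rw [← hk]
      | succ j =>
        right
        rw [hm] at hk
        have h1 := mem_edges_itWalk' hadj (N - 1) (f v0) j (by omega)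
        have h2 : f^[j] (f v0) = x := hk
        rw [Function.iterate_succ_apply', h2] at h1
        exact h1

end FlagHam
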