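import Pool.Agent.PolySum.Path
import Pool.Agent.PolySum.Ham

/-!
# A copy passed in one block gives a Hamilton cycle of the copied graph
-/

namespace PolySum

open FlagHam

variable {β V : Type*} {B : SimpleGraph β} {G : SimpleGraph V} {w : V} {R : Set β}
  {port : β → β → V} {n : ℕ} {F : ℕ → SumVert R w}

/-- The Hamilton cycle of `G` given by a block. -/
theorem cycle_of_block [Finite V] [DecidableEq V] (h : Pos B G w R port n F) {r : β} (hr : r ∈ R)
    (hport : ∀ b, B.Adj r b → G.Adj w (port r b))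
    (hinj : ∀ b b', B.Adj r b → B.Adj r b' → port r b = port r b' → b = b')
    {i₀ j₀ : ℕ} (hi₀ : 0 < i₀) (hij : i₀ ≤ j₀) (hj₀ : j₀ < n)
    (hblock : ∀ k, k ≤ n → ((F k).1.1 = r ↔ i₀ ≤ k ∧ k ≤ j₀))
    (hends : (F (i₀ - 1)).1.1 ≠ (F (j₀ + 1)).1.1) :
    B.Adj r (F (i₀ - 1)).1.1 ∧ B.Adj r (F (j₀ + 1)).1.1 ∧
      ∃ (c : V) (q : G.Walk c c), q.IsHamiltonianCycle ∧
        ∀ u, s(w, u) ∈ q.edges ↔
          (u = port r (F (i₀ - 1)).1.1 ∨ u = port r (F (j₀ + 1)).1.1) := by
  classical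
  have hri : (F i₀).1.1 = r := (hblock i₀ (by omega)).mpr ⟨le_rfl, hij⟩
  have hrj : (F j₀).1.1 = r := (hblock j₀ (by omega)).mpr ⟨hij, le_rfl⟩
  have hne1 : (F (i₀ - 1)).1.1 ≠ r := by
    intro h1
    have := ((hblock (i₀ - 1) (by omega)).mp h1).1
    omega
  have hne2 : (F (j₀ + 1)).1.1 ≠ r := by
    intro h1
    have := ((hblock (j₀ + 1) (by omega)).mp h1).2
    omega
  have hi1 : i₀ - 1 + 1 = i₀ := by omega
  have st1 := h.step (i := i₀ - 1) (by omega) (by rw [hi1, hri]; exact hne1)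
  rw [hi1, hri] at st1
  have st2 := h.step (i := j₀) (by omega) (by rw [hrj]; exact hne2.symm)
  rw [hrj] at st2
  set b := (F (i₀ - 1)).1.1 with hb
  set b' := (F (j₀ + 1)).1.1 with hb'
  have adj1 : B.Adj r b := st1.1.symm
  have adj2 : B.Adj r b' := st2.1
  have p1 : (F i₀).1.2 = port r b := st1.2.2 hr
  have p2 : (F j₀).1.2 = port r b' := st2.2.1 hr
  have a1 := hport b adj1
  have a2 := hport b' adj2
  have hpne : port r b ≠ port r b' := fun h1 => hends (hinj b b' adj1 adj2 h1)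
  refine ⟨adj1, adj2, ?_⟩
  -- positions
  have hposex : ∀ v : V, ∃ k, v ≠ w → (i₀ ≤ k ∧ k ≤ j₀) ∧ (F k).1.2 = v := by
    intro v
    by_cases hv : v = w
    · exact ⟨0, fun h1 => absurd hv h1⟩
    · obtain ⟨k, hk, hFk⟩ := h.surj ⟨(r, v), ⟨fun _ => hv, fun _ => hr⟩⟩
      refine ⟨k, fun _ => ⟨(hblock k hk).mp (by rw [hFk]), by rw [hFk]⟩⟩
  choose pos hpos using hposex
  have hposF : ∀ k, i₀ ≤ k → k ≤ j₀ → (F k).1.2 ≠ w ∧ pos (F k).1.2 = k := by
    intro k hk1 hk2
    have hkr : (F k).1.1 = r := (hblock k (by omega)).mpr ⟨hk1, hk2⟩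
    have hkw : (F k).1.2 ≠ w := (F k).2.mp (by rw [hkr]; exact hr)
    refine ⟨hkw, ?_⟩
    obtain ⟨⟨h1, h2⟩, h3⟩ := hpos _ hkw
    apply h.inj _ _ (by omega) (by omega)
    apply Subtype.ext
    refine Prod.ext ?_ h3
    rw [hkr]
    exact (hblock _ (by omega)).mpr ⟨h1, h2⟩
  -- the cyclic map
  let g : V → V := fun v => if v = w then port r b else if pos v = j₀ then w
    else (F (pos v + 1)).1.2
  have gw : g w = port r b := if_pos rfl
  have gj : g (F j₀).1.2 = w := by
    obtain ⟨h1, h2⟩ := hposF j₀ hij le_rfl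
    change (if (F j₀).1.2 = w then port r b else if pos (F j₀).1.2 = j₀ then w
      else (F (pos (F j₀).1.2 + 1)).1.2) = w
    rw [if_neg h1, if_pos h2]
  have gk : ∀ k, i₀ ≤ k → k < j₀ → g (F k).1.2 = (F (k + 1)).1.2 := by
    intro k hk1 hk2
    obtain ⟨h1, h2⟩ := hposF k hk1 hk2.le
    change (if (F k).1.2 = w then port r b else if pos (F k).1.2 = j₀ then w
      else (F (pos (F k).1.2 + 1)).1.2) = _
    rw [if_neg h1, if_neg (by omega), h2]
  have hadj : ∀ v, G.Adj v (g v) := by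
    intro v
    by_cases hv : v = w
    · subst hv
      rw [gw]
      exact a1
    · obtain ⟨⟨h1, h2⟩, h3⟩ := hpos v hv
      rw [← h3]
      rcases Nat.lt_or_ge (pos v) j₀ with h4 | h4
      · rw [gk _ h1 h4]
        apply h.inner (by omega)
        rw [(hblock _ (by omega)).mpr ⟨h1, h2⟩, (hblock _ (by omega)).mpr ⟨by omega, by omega⟩]
      · have h5 : pos v = j₀ := by omega
        rw [h5, gj, p2]
        exact a2.symm
  have toW : ∀ m k, i₀ ≤ k → k ≤ j₀ → j₀ - k = m → ∃ t, g^[t] (F k).1.2 = w := by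
    intro m
    induction m with
    | zero =>
      intro k hk1 hk2 hm
      have : k = j₀ := by omega
      subst this
      exact ⟨1, gj⟩
    | succ m ih =>
      intro k hk1 hk2 hm
      obtain ⟨t, ht⟩ := ih (k + 1) (by omega) (by omega) (by omega)
      refine ⟨t + 1, ?_⟩
      rw [Function.iterate_succ_apply, gk k hk1 (by omega)]
      exact ht
  have fromW : ∀ m k, i₀ ≤ k → k ≤ j₀ → k - i₀ = m → ∃ t, g^[t] w = (F k).1.2 := by
    intro m
    induction m with
    | zero =>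
      intro k hk1 hk2 hm
      have : k = i₀ := by omega
      subst this
      exact ⟨1, by rw [p1]; exact gw⟩
    | succ m ih =>
      intro k hk1 hk2 hm
      obtain ⟨t, ht⟩ := ih (k - 1) (by omega) (by omega) (by omega)
      refine ⟨t + 1, ?_⟩
      rw [Function.iterate_succ_apply', ht, gk (k - 1) (by omega) (by omega)]
      have : k - 1 + 1 = k := by omega
      rw [this]
  have htrans : ∀ u v, ∃ t, g^[t] u = v := by
    intro u v
    have h1 : ∃ t, g^[t] u = w := by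
      by_cases hu : u = w
      · exact ⟨0, hu⟩
      · obtain ⟨⟨h1, h2⟩, h3⟩ := hpos u hu
        rw [← h3]
        exact toW _ _ h1 h2 rfl
    have h2 : ∃ t, g^[t] w = v := by
      by_cases hv : v = w
      · exact ⟨0, hv.symm⟩
      · obtain ⟨⟨h1, h2⟩, h3⟩ := hpos v hv
        rw [← h3]
        exact fromW _ _ h1 h2 rfl
    obtain ⟨t1, ht1⟩ := h1
    obtain ⟨t2, ht2⟩ := h2
    exact ⟨t2 + t1, by rw [Function.iterate_add_apply, ht1, ht2]⟩
  obtain ⟨c, q, hq, hqe⟩ := hamiltonian_edges_of_cyclic hadj htrans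
    ⟨w, port r b, port r b', G.ne_of_adj a1, G.ne_of_adj a2, hpne⟩
  refine ⟨c, q, hq, ?_⟩
  intro u
  rw [hqe]
  constructor
  · rintro ⟨x, hx⟩
    rw [Sym2.eq_iff] at hx
    rcases hx with ⟨h1, h2⟩ | ⟨h1, h2⟩
    · subst h1
      left
      rw [h2, gw]
    · -- `w = g x`, `u = x`
      subst h2
      right
      by_cases hu : u = w
      · exfalso
        rw [hu, gw] at h1
        exact G.ne_of_adj a1 h1
      · obtain ⟨⟨h3, h4⟩, h5⟩ := hpos u hu
        rcases Nat.lt_or_ge (pos u) j₀ with h6 | h6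
        · exfalso
          rw [← h5, gk _ h3 h6] at h1
          exact (hposF (pos u + 1) (by omega) (by omega)).1 h1.symm
        · have h7 : pos u = j₀ := by omega
          rw [← h5, h7, p2]
  · rintro (rfl | rfl)
    · exact ⟨w, by rw [gw]⟩
    · refine ⟨port r b', ?_⟩
      rw [← p2, gj]
      exact Sym2.eq_swap

end PolySum
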