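import Pool.Agent.PolySum.Cycle

/-!
# A Hamilton path of the sum gives Hamilton cycles of the summand
-/

namespace PolySum

variable {β V : Type*} {B : SimpleGraph β} {G : SimpleGraph V} {w : V} {R : Set β}
  {port : β → β → V} {n : ℕ} {F : ℕ → SumVert R w}

/-- For every neighbour `r` of `s` which is passed in one block there is a Hamilton cycle of `G`
containing the edge `w u` if and only if `r` is next to `s` on the path. -/
theorem good [Finite V] [DecidableEq V] (h : Pos B G w R port n F) {S : Set β}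
    (hbip : ∀ b b', B.Adj b b' → (b ∈ S ↔ b' ∉ S)) (hRS : ∀ b ∈ R, b ∉ S)
    (hport : ∀ r ∈ R, ∀ b, B.Adj r b → G.Adj w (port r b))
    (hinj : ∀ r ∈ R, ∀ b b', B.Adj r b → B.Adj r b' → port r b = port r b' → b = b')
    {u : V} {s r : β} (hs : s ∈ S) (hsr : B.Adj s r) (hr : r ∈ R) (hu : port r s = u)
    (h0 : (F 0).1.1 ≠ r) (hn : (F n).1.1 ≠ r) (hmul : ¬ Multi F S n r) {k : ℕ} (hk : k ≤ n)
    (hks : (F k).1.1 = s) :
    ∃ (c : V) (q : G.Walk c c), q.IsHamiltonianCycle ∧
      (s(w, u) ∈ q.edges ↔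
        ((0 < k ∧ (F (k - 1)).1.1 = r) ∨ (k < n ∧ (F (k + 1)).1.1 = r))) := by
  have hne : ∃ v, v ≠ w := ⟨port r s, fun h1 => G.ne_of_adj (hport r hr s hsr.symm) h1.symm⟩
  obtain ⟨i₀, j₀, hi₀, hij, hj₀, hblock⟩ := exists_block h hRS hr hne h0 hn hmul
  have hri : (F i₀).1.1 = r := (hblock i₀ (by omega)).mpr ⟨le_rfl, hij⟩
  have hrj : (F j₀).1.1 = r := (hblock j₀ (by omega)).mpr ⟨hij, le_rfl⟩
  have hrS : r ∉ S := hRS r hr
  have hi1 : i₀ - 1 + 1 = i₀ := by omega
  have hne1 : (F (i₀ - 1)).1.1 ≠ r := by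
    intro h1
    have := ((hblock (i₀ - 1) (by omega)).mp h1).1
    omega
  have hne2 : (F (j₀ + 1)).1.1 ≠ r := by
    intro h1
    have := ((hblock (j₀ + 1) (by omega)).mp h1).2
    omega
  have st1 := (h.step (i := i₀ - 1) (by omega) (by rw [hi1, hri]; exact hne1)).1
  rw [hi1, hri] at st1
  have st2 := (h.step (i := j₀) (by omega) (by rw [hrj]; exact hne2.symm)).1
  rw [hrj] at st2
  have hbS : (F (i₀ - 1)).1.1 ∈ S := (hbip _ _ st1).mpr hrS
  have hb'S : (F (j₀ + 1)).1.1 ∈ S := by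
    by_contra hcon
    exact hrS ((hbip _ _ st2).mpr hcon)
  have hends : (F (i₀ - 1)).1.1 ≠ (F (j₀ + 1)).1.1 := by
    intro h1
    have := h.unique (i := i₀ - 1) (j := j₀ + 1) (by omega) (by omega)
      (fun h2 => hRS _ h2 hbS) h1
    omega
  obtain ⟨adj1, adj2, c, q, hq, hqe⟩ := cycle_of_block h hr (hport r hr) (hinj r hr) hi₀ hij hj₀
    hblock hends
  refine ⟨c, q, hq, ?_⟩
  rw [hqe]
  have hsR : s ∉ R := fun h1 => hRS s h1 hs
  have hsr' : s ≠ r := B.ne_of_adj hsr
  constructor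
  · rintro (h1 | h1)
    · right
      have h2 : s = (F (i₀ - 1)).1.1 :=
        hinj r hr _ _ hsr.symm adj1 (by rw [hu]; exact h1)
      have h3 : k = i₀ - 1 := h.unique hk (by omega) (by rw [hks]; exact hsR) (by rw [hks, h2])
      refine ⟨by omega, ?_⟩
      have h4 : k + 1 = i₀ := by omega
      rw [h4]
      exact hri
    · left
      have h2 : s = (F (j₀ + 1)).1.1 :=
        hinj r hr _ _ hsr.symm adj2 (by rw [hu]; exact h1)
      have h3 : k = j₀ + 1 := h.unique hk (by omega) (by rw [hks]; exact hsR) (by rw [hks, h2])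
      refine ⟨by omega, ?_⟩
      have h4 : k - 1 = j₀ := by omega
      rw [h4]
      exact hrj
  · have hkb : ¬ (i₀ ≤ k ∧ k ≤ j₀) := by
      intro h1
      have := (hblock k hk).mpr h1
      exact hsr' (hks.symm.trans this)
    rintro (⟨h1, h2⟩ | ⟨h1, h2⟩)
    · right
      have h3 := (hblock (k - 1) (by omega)).mp h2
      have h4 : j₀ + 1 = k := by omega
      rw [h4, hks, hu]
    · left
      have h3 := (hblock (k + 1) (by omega)).mp h2
      have h4 : i₀ - 1 = k := by omega
      rw [h4, hks, hu]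

/-- **The main theorem.** -/
theorem hamiltonian_of_sum [Finite β] [Finite V] [DecidableEq V] [DecidableEq (SumVert R w)]
    {S : Set β} (hbip : ∀ b b', B.Adj b b' → (b ∈ S ↔ b' ∉ S)) (hbal : S.ncard ≤ Sᶜ.ncard)
    (hRS : ∀ b ∈ R, b ∉ S)
    (hport : ∀ r ∈ R, ∀ b, B.Adj r b → G.Adj w (port r b))
    (hinj : ∀ r ∈ R, ∀ b b', B.Adj r b → B.Adj r b' → port r b = port r b' → b = b')
    {u : V} {s : Fin 4 → β} (hs : ∀ i, s i ∈ S)
    (hdisj : ∀ i j, i ≠ j → ∀ r, B.Adj (s i) r → ¬ B.Adj (s j) r)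
    (hthree : ∀ i, 3 ≤ (B.neighborSet (s i)).ncard)
    (hsR : ∀ i r, B.Adj (s i) r → r ∈ R) (hsu : ∀ i r, B.Adj (s i) r → port r (s i) = u)
    (hham : ∃ (a b : SumVert R w) (p : (sumGraph B G w R port).Walk a b), p.IsHamiltonian) :
    (∃ (c : V) (q : G.Walk c c), q.IsHamiltonianCycle ∧ s(w, u) ∈ q.edges) ∧
      ∃ (c : V) (q : G.Walk c c), q.IsHamiltonianCycle ∧ s(w, u) ∉ q.edges := by
  classical
  obtain ⟨a, b, p, hp⟩ := hham
  have h := pos_of_walk p hp
  set n := p.length with hn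
  set F := p.getVert with hF
  have hnonempty : ∀ i, (B.neighborSet (s i)).Nonempty := by
    intro i
    rw [Set.nonempty_iff_ne_empty]
    intro h1
    have := hthree i
    rw [h1, Set.ncard_empty] at this
    omega
  have hne : ∃ v, v ≠ w := by
    obtain ⟨r, hr⟩ := hnonempty 0
    have hr' : B.Adj (s 0) r := hr
    exact ⟨port r (s 0), fun h1 => G.ne_of_adj (hport r (hsR 0 r hr') _ hr'.symm) h1.symm⟩
  -- one of the four vertices has no exceptional neighbour
  obtain ⟨i, hi⟩ : ∃ i, ∀ r, B.Adj (s i) r →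
      (F 0).1.1 ≠ r ∧ (F n).1.1 ≠ r ∧ ¬ Multi F S n r := by
    by_contra hcon
    push Not at hcon
    choose r hr hr' using hcon
    have htype : ∀ i, ∃ t : Fin 3, (t = 0 → (F 0).1.1 = r i) ∧ (t = 1 → (F n).1.1 = r i) ∧
        (t = 2 → Multi F S n (r i)) := by
      intro i
      by_cases h0 : (F 0).1.1 = r i
      · exact ⟨0, fun _ => h0, fun h => absurd h (by decide), fun h => absurd h (by decide)⟩
      · by_cases h1 : (F n).1.1 = r i
        · exact ⟨1, fun h => absurd h (by decide), fun _ => h1, fun h => absurd h (by decide)⟩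
        · exact ⟨2, fun h => absurd h (by decide), fun h => absurd h (by decide),
            fun _ => hr' i h0 h1⟩
    choose t ht using htype
    obtain ⟨i, j, hij, htij⟩ := Fintype.exists_ne_map_eq_of_card_lt t (by simp)
    have heq : r i = r j := by
      obtain ⟨a1, a2, a3⟩ := ht i
      obtain ⟨b1, b2, b3⟩ := ht j
      rw [← htij] at b1 b2 b3
      have hcases : t i = 0 ∨ t i = 1 ∨ t i = 2 := by
        generalize t i = x
        fin_cases x <;> simp
      rcases hcases with hc | hc | hc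
      · exact (a1 hc).symm.trans (b1 hc)
      · exact (a2 hc).symm.trans (b2 hc)
      · exact multi_unique h hbip hRS hbal hne (a3 hc) (b3 hc)
    exact hdisj i j hij (r i) (hr i) (heq ▸ hr j)
  -- its position
  have hsS := hs i
  have hsnR : s i ∉ R := fun h1 => hRS _ h1 hsS
  obtain ⟨k, hk, hFk⟩ := h.surj ⟨(s i, w), ⟨fun h => absurd h hsnR, fun h => absurd rfl h⟩⟩
  have hks : (F k).1.1 = s i := by rw [hFk]
  have hgood : ∀ r, B.Adj (s i) r → ∃ (c : V) (q : G.Walk c c), q.IsHamiltonianCycle ∧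
      (s(w, u) ∈ q.edges ↔
        ((0 < k ∧ (F (k - 1)).1.1 = r) ∨ (k < n ∧ (F (k + 1)).1.1 = r))) := by
    intro r hr
    obtain ⟨h1, h2, h3⟩ := hi r hr
    exact good h hbip hRS hport hinj hsS hr (hsR i r hr) (hsu i r hr) h1 h2 h3 hk hks
  constructor
  · -- a neighbour on the path
    rcases Nat.lt_or_ge k n with h1 | h1
    · have hne' : (F k).1.1 ≠ (F (k + 1)).1.1 := by
        intro h2
        have := h.unique (i := k) (j := k + 1) (by omega) (by omega) (by rw [hks]; exact hsnR) h2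
        omega
      have st := (h.step h1 hne').1
      rw [hks] at st
      obtain ⟨c, q, hq, hqe⟩ := hgood _ st
      exact ⟨c, q, hq, hqe.mpr (Or.inr ⟨h1, rfl⟩)⟩
    · have hk0 : 0 < k := by
        -- there are other vertices
        obtain ⟨r, hr⟩ := hnonempty i
        have hr' : B.Adj (s i) r := hr
        have hrR := hsR i r hr'
        obtain ⟨v, hv⟩ := hne
        obtain ⟨m, hm, hFm⟩ := h.surj ⟨(r, v), ⟨fun _ => hv, fun _ => hrR⟩⟩
        by_contra hcon
        have h2 : m = k := by omega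
        rw [h2] at hFm
        have h3 : (F k).1.1 = r := by rw [hFm]
        exact B.ne_of_adj hr' (hks.symm.trans h3)
      have hk1 : k - 1 + 1 = k := by omega
      have hne' : (F (k - 1)).1.1 ≠ (F (k - 1 + 1)).1.1 := by
        rw [hk1]
        intro h2
        have := h.unique (i := k) (j := k - 1) (by omega) (by omega) (by rw [hks]; exact hsnR)
          h2.symm
        omega
      have st := (h.step (by omega) hne').1
      rw [hk1, hks] at st
      obtain ⟨c, q, hq, hqe⟩ := hgood _ st.symm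
      exact ⟨c, q, hq, hqe.mpr (Or.inl ⟨hk0, rfl⟩)⟩
  · by_contra hcon
    push Not at hcon
    have hsub : B.neighborSet (s i) ⊆ {(F (k - 1)).1.1, (F (k + 1)).1.1} := by
      intro r hr
      obtain ⟨c, q, hq, hqe⟩ := hgood r hr
      rcases hqe.mp (hcon c q hq) with ⟨_, h1⟩ | ⟨_, h1⟩
      · left; exact h1.symm
      · right; exact h1.symm
    have h1 := Set.ncard_le_ncard hsub (Set.toFinite _)
    have h2 : ({(F (k - 1)).1.1, (F (k + 1)).1.1} : Set β).ncard ≤ 2 := by
      have := Set.ncard_insert_le (F (k - 1)).1.1 ({(F (k + 1)).1.1} : Set β)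
      rw [Set.ncard_singleton] at this
      exact this
    have h3 := hthree i
    omega

end PolySum
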