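import Pool.Agent.PolySum.Defs

/-!
# Hamilton paths of the sum: most copies are passed exactly once
-/

namespace PolySum

variable {β V : Type*} {B : SimpleGraph β} {G : SimpleGraph V} {w : V} {R : Set β}
  {port : β → β → V}

/-- A Hamilton path as a function on the positions `0, ..., n`. -/
structure Pos (B : SimpleGraph β) (G : SimpleGraph V) (w : V) (R : Set β) (port : β → β → V)
    (n : ℕ) (F : ℕ → SumVert R w) : Prop where
  adj : ∀ i, i < n → (sumGraph B G w R port).Adj (F i) (F (i + 1))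
  inj : ∀ i j, i ≤ n → j ≤ n → F i = F j → i = j
  surj : ∀ x, ∃ i, i ≤ n ∧ F i = x

variable {n : ℕ} {F : ℕ → SumVert R w}

theorem pos_of_walk [DecidableEq (SumVert R w)] {a b : SumVert R w}
    (p : (sumGraph B G w R port).Walk a b) (hp : p.IsHamiltonian) :
    Pos B G w R port p.length p.getVert := by
  refine ⟨fun i hi => p.adj_getVert_succ hi, ?_, ?_⟩
  · intro i j hi hj h
    exact hp.isPath.getVert_injOn hi hj h
  · intro x
    obtain ⟨i, hi, hi'⟩ := SimpleGraph.Walk.mem_support_iff_exists_getVert.mp (hp.mem_support x)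
    exact ⟨i, hi', hi⟩

/-- A step to another vertex of the base. -/
theorem Pos.step (h : Pos B G w R port n F) {i : ℕ} (hi : i < n)
    (hne : (F i).1.1 ≠ (F (i + 1)).1.1) :
    B.Adj (F i).1.1 (F (i + 1)).1.1 ∧
      ((F i).1.1 ∈ R → (F i).1.2 = port (F i).1.1 (F (i + 1)).1.1) ∧
      ((F (i + 1)).1.1 ∈ R → (F (i + 1)).1.2 = port (F (i + 1)).1.1 (F i).1.1) := by
  rcases h.adj i hi with ⟨h1, _⟩ | h1
  · exact absurd h1 hne
  · exact h1

/-- A step inside a copy. -/
theorem Pos.inner (h : Pos B G w R port n F) {i : ℕ} (hi : i < n)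
    (heq : (F i).1.1 = (F (i + 1)).1.1) : G.Adj (F i).1.2 (F (i + 1)).1.2 := by
  rcases h.adj i hi with ⟨_, h1⟩ | ⟨h1, _⟩
  · exact h1
  · exact absurd heq (B.ne_of_adj h1)

/-- A vertex that is not replaced has only one position. -/
theorem Pos.unique (h : Pos B G w R port n F) {i j : ℕ} (hi : i ≤ n) (hj : j ≤ n)
    (hb : (F i).1.1 ∉ R) (heq : (F i).1.1 = (F j).1.1) : i = j := by
  apply h.inj i j hi hj
  apply Subtype.ext
  have h1 : (F i).1.2 = w := by
    by_contra hne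
    exact hb ((F i).2.mpr hne)
  have h2 : (F j).1.2 = w := by
    by_contra hne
    exact hb (heq ▸ (F j).2.mpr hne)
  exact Prod.ext heq (h1.trans h2.symm)

/-- The position `i` starts a visit. -/
def Start (F : ℕ → SumVert R w) (S : Set β) (n i : ℕ) : Prop :=
  i ≤ n ∧ (F i).1.1 ∉ S ∧ (i = 0 ∨ (F (i - 1)).1.1 ≠ (F i).1.1)

/-- `b` has two starts. -/
def Multi (F : ℕ → SumVert R w) (S : Set β) (n : ℕ) (b : β) : Prop :=
  ∃ i j, i ≠ j ∧ Start F S n i ∧ Start F S n j ∧ (F i).1.1 = b ∧ (F j).1.1 = b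

theorem starts_finite (F : ℕ → SumVert R w) (S : Set β) (n : ℕ) : {i | Start F S n i}.Finite :=
  (Set.finite_Iic n).subset fun _ hi => hi.1

/-- There is at most one start more than vertices in `S`. -/
theorem card_starts [Finite β] (h : Pos B G w R port n F) {S : Set β}
    (hbip : ∀ b b', B.Adj b b' → (b ∈ S ↔ b' ∉ S)) (hRS : ∀ b ∈ R, b ∉ S) :
    {i | Start F S n i}.ncard ≤ S.ncard + 1 := by
  have h1 : ({i | Start F S n i} \ {0}).ncard ≤ S.ncard := by
    refine Set.ncard_le_ncard_of_injOn (fun i => (F (i - 1)).1.1) ?_ ?_ (Set.toFinite S)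
    · rintro i ⟨⟨hi, hiS, hi0⟩, hne⟩
      have hne' : i ≠ 0 := hne
      have hi1 : (F (i - 1)).1.1 ≠ (F i).1.1 := by
        rcases hi0 with h0 | h0
        · exact absurd h0 hne'
        · exact h0
      have hi2 : i - 1 + 1 = i := by omega
      have h2 := h.step (i := i - 1) (by omega) (by rw [hi2]; exact hi1)
      rw [hi2] at h2
      exact (hbip _ _ h2.1).mpr hiS
    · rintro i ⟨⟨hi, hiS, hi0⟩, hne⟩ j ⟨⟨hj, hjS, hj0⟩, hne'⟩ heq
      have h3 : i ≠ 0 := hne
      have h4 : j ≠ 0 := hne'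
      have hi1 : (F (i - 1)).1.1 ≠ (F i).1.1 := by
        rcases hi0 with h0 | h0
        · exact absurd h0 h3
        · exact h0
      have hi2 : i - 1 + 1 = i := by omega
      have h2 := h.step (i := i - 1) (by omega) (by rw [hi2]; exact hi1)
      rw [hi2] at h2
      have h5 : (F (i - 1)).1.1 ∈ S := (hbip _ _ h2.1).mpr hiS
      have h6 := h.unique (i := i - 1) (j := j - 1) (by omega) (by omega)
        (fun h7 => hRS _ h7 h5) heq
      omega
  have h2 : {i | Start F S n i} ⊆ ({i | Start F S n i} \ {0}) ∪ {0} := by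
    intro i hi
    by_cases h0 : i = 0
    · exact Or.inr h0
    · exact Or.inl ⟨hi, h0⟩
  have hfin := starts_finite F S n
  have h3 := Set.ncard_le_ncard h2 ((hfin.subset Set.sdiff_subset).union (Set.finite_singleton 0))
  have h4 := Set.ncard_union_le ({i | Start F S n i} \ {0}) ({0} : Set ℕ)
  rw [Set.ncard_singleton] at h4
  omega

/-- Every vertex outside `S` has a start. -/
theorem exists_start (h : Pos B G w R port n F) {S : Set β} (hne : ∃ v, v ≠ w) {b : β}
    (hb : b ∉ S) : ∃ i, Start F S n i ∧ (F i).1.1 = b := by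
  classical
  have hex : ∃ i, i ≤ n ∧ (F i).1.1 = b := by
    by_cases hbR : b ∈ R
    · obtain ⟨v, hv⟩ := hne
      obtain ⟨i, hi, hFi⟩ := h.surj ⟨(b, v), ⟨fun _ => hv, fun _ => hbR⟩⟩
      exact ⟨i, hi, by rw [hFi]⟩
    · obtain ⟨i, hi, hFi⟩ := h.surj ⟨(b, w), ⟨fun h => absurd h hbR, fun h => absurd rfl h⟩⟩
      exact ⟨i, hi, by rw [hFi]⟩
  refine ⟨Nat.find hex, ⟨(Nat.find_spec hex).1, ?_, ?_⟩, (Nat.find_spec hex).2⟩
  · rw [(Nat.find_spec hex).2]
    exact hb
  · by_cases h0 : Nat.find hex = 0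
    · exact Or.inl h0
    · right
      intro h1
      have h2 := Nat.find_spec hex
      exact Nat.find_min hex (m := Nat.find hex - 1) (by omega)
        ⟨by omega, h1.trans h2.2⟩

/-- At most one vertex has two starts. -/
theorem multi_unique [Finite β] (h : Pos B G w R port n F) {S : Set β}
    (hbip : ∀ b b', B.Adj b b' → (b ∈ S ↔ b' ∉ S)) (hRS : ∀ b ∈ R, b ∉ S)
    (hbal : S.ncard ≤ Sᶜ.ncard) (hne : ∃ v, v ≠ w) {b b' : β} (hb : Multi F S n b)
    (hb' : Multi F S n b') : b = b' := by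
  classical
  by_contra hbb
  have hex : ∀ c : β, ∃ i, c ∉ S → Start F S n i ∧ (F i).1.1 = c := by
    intro c
    by_cases hc : c ∈ S
    · exact ⟨0, fun h => absurd hc h⟩
    · obtain ⟨i, hi⟩ := exists_start h hne hc
      exact ⟨i, fun _ => hi⟩
  choose m hm using hex
  have other : ∀ c, Multi F S n c → ∃ i, Start F S n i ∧ (F i).1.1 = c ∧ i ≠ m c := by
    rintro c ⟨i, j, hij, hi, hj, hic, hjc⟩
    by_cases him : i = m c
    · exact ⟨j, hj, hjc, fun h => hij (him.trans h.symm)⟩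
    · exact ⟨i, hi, hic, him⟩
  obtain ⟨e, he, hec, hem⟩ := other b hb
  obtain ⟨e', he', hec', hem'⟩ := other b' hb'
  have hinj : Set.InjOn m Sᶜ := by
    intro c hc c' hc' hcc
    have h1 := (hm c hc).2
    have h2 := (hm c' hc').2
    rw [hcc] at h1
    exact h1.symm.trans h2
  have hcard : (m '' Sᶜ).ncard = Sᶜ.ncard := hinj.ncard_image
  have hsub : insert e (insert e' (m '' Sᶜ)) ⊆ {i | Start F S n i} := by
    rintro i (rfl | rfl | ⟨c, hc, rfl⟩)
    · exact he
    · exact he'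
    · exact (hm c hc).1
  have h1 : e' ∉ m '' Sᶜ := by
    rintro ⟨c, hc, hce⟩
    have h2 := (hm c hc).2
    rw [hce, hec'] at h2
    rw [← h2] at hce
    exact hem' hce.symm
  have h2 : e ∉ insert e' (m '' Sᶜ) := by
    rintro (h3 | ⟨c, hc, hce⟩)
    · rw [h3, hec'] at hec
      exact hbb hec.symm
    · have h2 := (hm c hc).2
      rw [hce, hec] at h2
      rw [← h2] at hce
      exact hem hce.symm
  have h3 := Set.ncard_le_ncard hsub (starts_finite F S n)
  rw [Set.ncard_insert_of_notMem h2 (Set.toFinite _),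
    Set.ncard_insert_of_notMem h1 (Set.toFinite _), hcard] at h3
  have h4 := card_starts h hbip hRS
  omega

/-- A copy which contains neither end of the path and is not visited twice is passed in one
block. -/
theorem exists_block (h : Pos B G w R port n F) {S : Set β} (hRS : ∀ b ∈ R, b ∉ S) {r : β}
    (hr : r ∈ R) (hne : ∃ v, v ≠ w) (h0 : (F 0).1.1 ≠ r) (hn : (F n).1.1 ≠ r)
    (hmul : ¬ Multi F S n r) :
    ∃ i₀ j₀, 0 < i₀ ∧ i₀ ≤ j₀ ∧ j₀ < n ∧ ∀ k, k ≤ n → ((F k).1.1 = r ↔ i₀ ≤ k ∧ k ≤ j₀) := by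
  classical
  set P : Finset ℕ := (Finset.range (n + 1)).filter (fun k => (F k).1.1 = r) with hP
  have hmem : ∀ k, k ∈ P ↔ k ≤ n ∧ (F k).1.1 = r := by
    intro k
    rw [hP, Finset.mem_filter, Finset.mem_range]
    constructor
    · rintro ⟨h1, h2⟩; exact ⟨by omega, h2⟩
    · rintro ⟨h1, h2⟩; exact ⟨by omega, h2⟩
  have hPne : P.Nonempty := by
    obtain ⟨v, hv⟩ := hne
    obtain ⟨i, hi, hFi⟩ := h.surj ⟨(r, v), ⟨fun _ => hv, fun _ => hr⟩⟩
    exact ⟨i, (hmem i).mpr ⟨hi, by rw [hFi]⟩⟩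
  have hmin := (hmem _).mp (P.min'_mem hPne)
  have hmax := (hmem _).mp (P.max'_mem hPne)
  set i₀ := P.min' hPne with hi₀
  set j₀ := P.max' hPne with hj₀
  have hi0 : i₀ ≠ 0 := fun h1 => h0 (by rw [← h1]; exact hmin.2)
  have hjn : j₀ ≠ n := fun h1 => hn (by rw [← h1]; exact hmax.2)
  have hle : ∀ k ∈ P, i₀ ≤ k ∧ k ≤ j₀ := fun k hk => ⟨P.min'_le k hk, P.le_max' k hk⟩
  refine ⟨i₀, j₀, by omega, (hle _ (P.max'_mem hPne)).1, by omega, ?_⟩
  intro k hk
  constructor
  · intro hkr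
    exact hle k ((hmem k).mpr ⟨hk, hkr⟩)
  · rintro ⟨h1, h2⟩
    by_contra hkr
    -- the next position in the copy is another start
    have hex : ∃ k', k < k' ∧ k' ≤ n ∧ (F k').1.1 = r := by
      refine ⟨j₀, ?_, hmax.1, hmax.2⟩
      rcases Nat.lt_or_ge k j₀ with h3 | h3
      · exact h3
      · have : k = j₀ := by omega
        exact absurd (this ▸ hmax.2) hkr
    have hk' := Nat.find_spec hex
    have hk'm := fun m => Nat.find_min hex (m := m)
    set k' := Nat.find hex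
    apply hmul
    refine ⟨i₀, k', by omega, ⟨hmin.1, ?_, Or.inr ?_⟩, ⟨hk'.2.1, ?_, Or.inr ?_⟩, hmin.2,
      hk'.2.2⟩
    · rw [hmin.2]; exact hRS r hr
    · rw [hmin.2]
      intro h3
      have := (hle (i₀ - 1) ((hmem _).mpr ⟨by omega, h3⟩)).1
      omega
    · rw [hk'.2.2]; exact hRS r hr
    · rw [hk'.2.2]
      intro h3
      by_cases h4 : k' - 1 = k
      · exact hkr (h4 ▸ h3)
      · exact hk'm (k' - 1) (by omega) ⟨by omega, by omega, h3⟩

end PolySum
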